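import Mathlib

set_option autoImplicit false

open CategoryTheory Simplicial Opposite

namespace Pool.Agent.N7.Q

/-- The inclusion of the first `p + 1` vertices in the `n`-simplex. -/
def frontHom {p n : ℕ} (h : p ≤ n) : (⦋p⦌ : SimplexCategory) ⟶ ⦋n⦌ :=
  SimplexCategory.mkHom ⟨fun i => ⟨i.val, by omega⟩, fun _ _ hij => hij⟩

/-- The inclusion of the last `q + 1` vertices in the `n`-simplex. -/
def backHom {q n : ℕ} (h : q ≤ n) : (⦋q⦌ : SimplexCategory) ⟶ ⦋n⦌ :=
  SimplexCategory.mkHom ⟨fun i => ⟨i.val + (n - q), by omega⟩,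
    fun _ _ hij => Nat.add_le_add_right hij _⟩

/-- Families of cochains, one in each degree, of the simplicial set `X` with values in `k`. -/
def TotalCochain (k : Type) (X : SSet.{0}) : Type := ∀ n : ℕ, X.obj (op ⦋n⦌) → k

instance (k : Type) [CommRing k] (X : SSet.{0}) : AddCommGroup (TotalCochain k X) :=
  (Pi.addCommGroup : AddCommGroup (∀ n : ℕ, X.obj (op ⦋n⦌) → k))

/-- The cup product: the value of `f ∪ g` at an `n`-simplex `x` is the sum, over `p + q = n`, of the
value of `f` at the front `p`-face of `x` times the value of `g` at the back `q`-face of `x`. -/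
def cup {k : Type} [CommRing k] {X : SSet.{0}} (f g : TotalCochain k X) : TotalCochain k X :=
  fun n x => ∑ p : Fin (n + 1),
    f p.val (X.map (frontHom (Nat.le_of_lt_succ p.isLt)).op x) *
      g (n - p.val) (X.map (backHom (Nat.sub_le n p.val)).op x)

/-- The unit cochain, equal to one on every vertex and zero in positive degrees. -/
def unit {k : Type} [CommRing k] {X : SSet.{0}} : TotalCochain k X :=
  fun n _ => if n = 0 then 1 else 0

/-- The coboundary, the alternating sum over the faces. -/
def cobd {k : Type} [CommRing k] {X : SSet.{0}} (f : TotalCochain k X) : TotalCochain k X :=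
  fun n =>
    match n with
    | 0 => fun _ => 0
    | n + 1 => fun x =>
      ∑ i : Fin (n + 2), (-1 : k) ^ i.val * f n (X.map (SimplexCategory.δ i).op x)

/-- The pull-back of cochains along a map of simplicial sets. -/
def pull {k : Type} {X Y : SSet.{0}} (φ : X ⟶ Y) (f : TotalCochain k Y) : TotalCochain k X :=
  fun n x => f n (φ.app (op ⦋n⦌) x)

end Pool.Agent.N7.Q
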