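import Pool.Agent.N7.Q.Lem

set_option autoImplicit false

open CategoryTheory Simplicial Opposite

namespace Pool.Agent.N7.Q

/-- The ring of all families of cochains, with the cup product. -/
instance (k : Type) [CommRing k] (X : SSet.{0}) : Ring (TotalCochain k X) :=
  { (inferInstance : AddCommGroup (TotalCochain k X)) with
    mul := cup
    one := unit
    mul_assoc := cup_assoc'
    one_mul := unit_cup
    mul_one := cup_unit
    left_distrib := cup_add'
    right_distrib := add_cup'
    zero_mul := zero_cup'
    mul_zero := cup_zero' }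

/-- The cocycles in `⨁ n, C^n(X; k)` : the families of cochains with only finitely many nonzero
members and with vanishing coboundary. -/
def cocycles (k : Type) [CommRing k] (X : SSet.{0}) : Subring (TotalCochain k X) where
  carrier := {f | (∃ N : ℕ, ∀ n ≥ N, ∀ x, f n x = 0) ∧ cobd f = 0}
  zero_mem' := ⟨⟨0, fun _ _ _ => rfl⟩, cobd_zero⟩
  one_mem' := ⟨⟨1, fun n hn x => if_neg (by omega)⟩, cobd_unit⟩
  add_mem' := fun hf hg => ⟨add_finite hf.1 hg.1, by rw [cobd_add, hf.2, hg.2, add_zero]⟩
  neg_mem' := fun hf => ⟨neg_finite hf.1, by rw [cobd_neg, hf.2, neg_zero]⟩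
  mul_mem' := fun hf hg => ⟨cup_finite hf.1 hg.1, cobd_cup_of_cocycle hf.2 hg.2⟩

/-- The ring of cocycles. -/
def Cocycle (k : Type) [CommRing k] (X : SSet.{0}) : Type := cocycles k X

instance (k : Type) [CommRing k] (X : SSet.{0}) : Ring (Cocycle k X) := (cocycles k X).toRing

/-- The cochain underlying a cocycle. -/
def Cocycle.val {k : Type} [CommRing k] {X : SSet.{0}} (z : Cocycle k X) : TotalCochain k X := z.1

/-- A cocycle `z` is a coboundary if `z` is the coboundary of an element of `⨁ n, C^n(X; k)`. -/
def IsCoboundary {k : Type} [CommRing k] {X : SSet.{0}} (z : Cocycle k X) : Prop :=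
  ∃ f : TotalCochain k X, (∃ N : ℕ, ∀ n ≥ N, ∀ x, f n x = 0) ∧ cobd f = z.val

lemma IsCoboundary.zero {k : Type} [CommRing k] {X : SSet.{0}} :
    IsCoboundary (0 : Cocycle k X) := ⟨0, ⟨0, fun _ _ _ => rfl⟩, cobd_zero⟩

lemma IsCoboundary.add {k : Type} [CommRing k] {X : SSet.{0}} {a b : Cocycle k X}
    (ha : IsCoboundary a) (hb : IsCoboundary b) : IsCoboundary (a + b) := by
  obtain ⟨f, hf1, hf2⟩ := ha
  obtain ⟨g, hg1, hg2⟩ := hb
  exact ⟨f + g, add_finite hf1 hg1, by rw [cobd_add, hf2, hg2]; rfl⟩

lemma IsCoboundary.mul_left {k : Type} [CommRing k] {X : SSet.{0}} (a : Cocycle k X)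
    {b : Cocycle k X} (hb : IsCoboundary b) : IsCoboundary (a * b) := by
  obtain ⟨f, hf1, hf2⟩ := hb
  exact ⟨cup (sgn a.1) f, cup_finite (sgn_finite a.2.1) hf1, by
      rw [cobd_sgn_cup a.2.2, hf2]; rfl⟩

lemma IsCoboundary.mul_right {k : Type} [CommRing k] {X : SSet.{0}} {a : Cocycle k X}
    (b : Cocycle k X) (ha : IsCoboundary a) : IsCoboundary (a * b) := by
  obtain ⟨f, hf1, hf2⟩ := ha
  exact ⟨cup f b.1, cup_finite hf1 b.2.1, by rw [cobd_cup_right b.2.2, hf2]; rfl⟩

/-- The coboundaries, an ideal in the ring of cocycles. -/
def coboundaries (k : Type) [CommRing k] (X : SSet.{0}) : Ideal (Cocycle k X) where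
  carrier := {z | IsCoboundary z}
  zero_mem' := IsCoboundary.zero
  add_mem' := IsCoboundary.add
  smul_mem' := IsCoboundary.mul_left

instance (k : Type) [CommRing k] (X : SSet.{0}) : (coboundaries k X).IsTwoSided :=
  ⟨IsCoboundary.mul_right⟩

/-- The cohomology ring `H^•(X; k)`, the direct sum of all `H^n(X; k)`, of the simplicial set
`X`. -/
def CohomologyRing (k : Type) [CommRing k] (X : SSet.{0}) : Type :=
  Cocycle k X ⧸ coboundaries k X

noncomputable instance (k : Type) [CommRing k] (X : SSet.{0}) : Ring (CohomologyRing k X) :=
  Ideal.Quotient.ring (coboundaries k X)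

/-- The class of a cocycle. -/
noncomputable def cls (k : Type) [CommRing k] (X : SSet.{0}) :
    Cocycle k X →+* CohomologyRing k X :=
  Ideal.Quotient.mk (coboundaries k X)

/-- The pull-back of a cocycle. -/
def pullbackFun {k : Type} [CommRing k] {X Y : SSet.{0}} (φ : X ⟶ Y) (f : Cocycle k Y) :
    Cocycle k X :=
  ⟨pull φ f.1, pull_finite φ f.2.1, pull_cocycle φ f.2.2⟩

lemma pullbackFun_mul {k : Type} [CommRing k] {X Y : SSet.{0}} (φ : X ⟶ Y) (f g : Cocycle k Y) :
    pullbackFun φ (f * g) = pullbackFun φ f * pullbackFun φ g :=
  Subtype.ext (pull_cup φ f.1 g.1)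

lemma pullbackFun_add {k : Type} [CommRing k] {X Y : SSet.{0}} (φ : X ⟶ Y) (f g : Cocycle k Y) :
    pullbackFun φ (f + g) = pullbackFun φ f + pullbackFun φ g := rfl

lemma pullbackFun_zero {k : Type} [CommRing k] {X Y : SSet.{0}} (φ : X ⟶ Y) :
    pullbackFun φ (0 : Cocycle k Y) = 0 := rfl

lemma pullbackFun_one {k : Type} [CommRing k] {X Y : SSet.{0}} (φ : X ⟶ Y) :
    pullbackFun φ (1 : Cocycle k Y) = 1 := rfl

/-- The pull-back of cocycles, a ring homomorphism. -/
def pullbackCocycles (k : Type) [CommRing k] {X Y : SSet.{0}} (φ : X ⟶ Y) :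
    Cocycle k Y →+* Cocycle k X where
  toFun := pullbackFun φ
  map_zero' := pullbackFun_zero φ
  map_one' := pullbackFun_one φ
  map_add' := pullbackFun_add φ
  map_mul' := pullbackFun_mul φ

lemma pullbackCocycles_mem (k : Type) [CommRing k] {X Y : SSet.{0}} (φ : X ⟶ Y)
    (z : Cocycle k Y) (hz : z ∈ coboundaries k Y) :
    (cls k X).comp (pullbackCocycles k φ) z = 0 := by
  obtain ⟨f, hf1, hf2⟩ := hz
  apply Ideal.Quotient.eq_zero_iff_mem.2
  refine ⟨pull φ f, pull_finite φ hf1, ?_⟩
  rw [cobd_pull, hf2]
  rfl

/-- The ring homomorphism `H^•(Y; k) → H^•(X; k)` induced by a map `X → Y` of simplicial sets. -/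
noncomputable def cohomologyMap (k : Type) [CommRing k] {X Y : SSet.{0}} (φ : X ⟶ Y) :
    CohomologyRing k Y →+* CohomologyRing k X :=
  Ideal.Quotient.lift (coboundaries k Y) ((cls k X).comp (pullbackCocycles k φ))
    (pullbackCocycles_mem k φ)

/-- The classifying space of the discrete group `G`, as a simplicial set: the nerve of the category
with one object and with the elements of `G` as morphisms. -/
def classifyingSpace (G : Type) [Group G] : SSet.{0} := nerve (SingleObj G)

/-- The map of classifying spaces induced by a homomorphism of discrete groups. -/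
def classifyingMap {G H : Type} [Group G] [Group H] (φ : G →* H) :
    classifyingSpace G ⟶ classifyingSpace H := nerveMap φ.toFunctor

section top

/-- The group of singular `n`-simplices of the topological group `G` : the continuous maps from the
topological standard simplex to `G`. -/
def SingGroup (G : Type) [TopologicalSpace G] (n : SimplexCategory) : Type :=
  C(stdSimplex ℝ (Fin (n.len + 1)), G)

variable (G : Type) [Group G] [TopologicalSpace G] [IsTopologicalGroup G]

noncomputable instance (n : SimplexCategory) : Group (SingGroup G n) :=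
  (inferInstance : Group C(stdSimplex ℝ (Fin (n.len + 1)), G))

/-- The restriction of singular simplices along a simplicial operator. -/
noncomputable def singRestrict {m n : SimplexCategory} (θ : m ⟶ n) (f : SingGroup G n) :
    SingGroup G m :=
  ContinuousMap.comp f ⟨stdSimplex.map θ, stdSimplex.continuous_map θ⟩

lemma singRestrict_one {m n : SimplexCategory} (θ : m ⟶ n) : singRestrict G θ 1 = 1 := rfl

lemma singRestrict_mul {m n : SimplexCategory} (θ : m ⟶ n) (f g : SingGroup G n) :
    singRestrict G θ (f * g) = singRestrict G θ f * singRestrict G θ g := rfl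

/-- The restriction of singular simplices along a simplicial operator, a homomorphism. -/
noncomputable def singMap {m n : SimplexCategory} (θ : m ⟶ n) : SingGroup G n →* SingGroup G m where
  toFun := singRestrict G θ
  map_one' := singRestrict_one G θ
  map_mul' := singRestrict_mul G θ

lemma singMap_id (n : SimplexCategory) : singMap G (𝟙 n) = MonoidHom.id _ := by
  ext f
  apply ContinuousMap.ext
  intro x
  change (show C(stdSimplex ℝ (Fin (n.len + 1)), G) from f) (stdSimplex.map id x) = _
  rw [stdSimplex.map_id_apply]
  rfl

lemma singMap_comp {l m n : SimplexCategory} (η : l ⟶ m) (θ : m ⟶ n) :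
    singMap G (η ≫ θ) = (singMap G η).comp (singMap G θ) := by
  ext f
  apply ContinuousMap.ext
  intro x
  change (show C(stdSimplex ℝ (Fin (n.len + 1)), G) from f) (stdSimplex.map (θ ∘ η) x) =
    (show C(stdSimplex ℝ (Fin (n.len + 1)), G) from f) (stdSimplex.map θ (stdSimplex.map η x))
  rw [stdSimplex.map_comp_apply]

/-- The `n`-simplices of the classifying space of the topological group `G` : the `n`-simplices of
the nerve of the group of singular `n`-simplices of `G`. -/
def TopSimplex (n : SimplexCategoryᵒᵖ) : Type := (classifyingSpace (SingGroup G n.unop)).obj n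

/-- The simplicial operators of the classifying space of the topological group `G`. -/
noncomputable def topSimplexMap {n m : SimplexCategoryᵒᵖ} (θ : n ⟶ m) (x : TopSimplex G n) :
    TopSimplex G m :=
  (classifyingSpace (SingGroup G m.unop)).map θ ((classifyingMap (singMap G θ.unop)).app n x)

lemma topSimplexMap_id (n : SimplexCategoryᵒᵖ) (x : TopSimplex G n) :
    topSimplexMap G (𝟙 n) x = x := by
  unfold topSimplexMap classifyingMap
  rw [unop_id, singMap_id, MonoidHom.id_toFunctor]
  rfl

lemma topSimplexMap_comp {a b c : SimplexCategoryᵒᵖ} (θ : a ⟶ b) (η : b ⟶ c)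
    (x : TopSimplex G a) :
    topSimplexMap G (θ ≫ η) x = topSimplexMap G η (topSimplexMap G θ x) := by
  unfold topSimplexMap classifyingMap
  rw [unop_comp, singMap_comp, MonoidHom.comp_toFunctor]
  rfl

/-- The classifying space of the topological group `G`, as a simplicial set: the diagonal of the
bisimplicial set with the singular simplices of the spaces `G ^ n`. -/
noncomputable def classifyingSpaceTop : SSet.{0} where
  obj n := TopSimplex G n
  map θ := ↾(topSimplexMap G θ)
  map_id n := by
    ext x
    exact topSimplexMap_id G n x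
  map_comp θ η := by
    ext x
    exact topSimplexMap_comp G θ η x

end top

section comparison

variable {Γ G : Type} [Group Γ] [Group G] [TopologicalSpace G] [IsTopologicalGroup G] (φ : Γ →* G)

/-- The constant singular simplex with value `φ g`. -/
def constSimplex (n : SimplexCategory) (g : Γ) : SingGroup G n :=
  (ContinuousMap.const _ (φ g) : C(stdSimplex ℝ (Fin (n.len + 1)), G))

lemma constSimplex_one (n : SimplexCategory) : constSimplex φ n 1 = 1 := by
  unfold constSimplex
  rw [map_one]
  rfl

lemma constSimplex_mul (n : SimplexCategory) (g h : Γ) :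
    constSimplex φ n (g * h) = constSimplex φ n g * constSimplex φ n h := by
  unfold constSimplex
  rw [map_mul]
  rfl

/-- The homomorphism from the discrete group `Γ` to the group of singular `n`-simplices of the
topological group `G` which is induced by `φ : Γ → G` : its values are constant simplices. -/
noncomputable def constSing (n : SimplexCategory) : Γ →* SingGroup G n where
  toFun := constSimplex φ n
  map_one' := constSimplex_one φ n
  map_mul' := constSimplex_mul φ n

/-- The map from the `n`-simplices of the classifying space of the discrete group `Γ` to those of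
the classifying space of the topological group `G` which is induced by `φ : Γ → G`. -/
noncomputable def toTopSimplex (n : SimplexCategoryᵒᵖ) (x : (classifyingSpace Γ).obj n) : TopSimplex G n :=
  (classifyingMap (constSing φ n.unop)).app n x

lemma toTopSimplex_map {n m : SimplexCategoryᵒᵖ} (θ : n ⟶ m) (x : (classifyingSpace Γ).obj n) :
    toTopSimplex φ m ((classifyingSpace Γ).map θ x) =
      topSimplexMap G θ (toTopSimplex φ n x) := by
  have h : constSing φ m.unop = (singMap G θ.unop).comp (constSing φ n.unop) := rfl
  unfold toTopSimplex topSimplexMap classifyingMap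
  rw [h, MonoidHom.comp_toFunctor]
  rfl

/-- The map of classifying spaces induced by a homomorphism from a discrete group `Γ` to a
topological group `G`. -/
noncomputable def classifyingMapTop : classifyingSpace Γ ⟶ classifyingSpaceTop G where
  app n := ↾(toTopSimplex φ n)
  naturality n m θ := by
    ext x
    exact toTopSimplex_map φ θ x

end comparison

section groups

variable (l : ℕ)

/-- The cohomology ring `H^•(G; ZMod l)` of the discrete group `G`. -/
def GroupCohomologyRing (G : Type) [Group G] : Type :=
  CohomologyRing (ZMod l) (classifyingSpace G)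

noncomputable instance (G : Type) [Group G] : Ring (GroupCohomologyRing l G) :=
  (instRingCohomologyRing (ZMod l) (classifyingSpace G))

/-- The restriction from `H^•(G; ZMod l)` to the cohomology of a subgroup. -/
noncomputable def restrict {G : Type} [Group G] (F : Subgroup G) :
    GroupCohomologyRing l G →+* GroupCohomologyRing l F :=
  cohomologyMap (ZMod l) (classifyingMap F.subtype)

/-- The cohomology ring `H^•(BG; ZMod l)` of the topological group `G`. -/
def TopCohomologyRing (G : Type) [Group G] [TopologicalSpace G] [IsTopologicalGroup G] : Type :=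
  CohomologyRing (ZMod l) (classifyingSpaceTop G)

noncomputable instance (G : Type) [Group G] [TopologicalSpace G] [IsTopologicalGroup G] :
    Ring (TopCohomologyRing l G) :=
  (instRingCohomologyRing (ZMod l) (classifyingSpaceTop G))

/-- The restriction `H^•(BG; ZMod l) → H^•(Γ; ZMod l)` along a homomorphism from the discrete group
`Γ` to the topological group `G`. -/
noncomputable def restrictTop {Γ G : Type} [Group Γ] [Group G] [TopologicalSpace G]
    [IsTopologicalGroup G] (φ : Γ →* G) : TopCohomologyRing l G →+* GroupCohomologyRing l Γ :=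
  cohomologyMap (ZMod l) (classifyingMapTop φ)

end groups

end Pool.Agent.N7.Q
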