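import Pool.Agent.N7.Q.Basic

set_option autoImplicit false

open CategoryTheory Simplicial Opposite

namespace Pool.Agent.N7.Q

section lemmas

variable {k : Type} [CommRing k] {X : SSet.{0}}

lemma add_apply (f g : TotalCochain k X) (n : ℕ) (x : X.obj (op ⦋n⦌)) :
    (f + g) n x = f n x + g n x := rfl

lemma zero_apply (n : ℕ) (x : X.obj (op ⦋n⦌)) : (0 : TotalCochain k X) n x = 0 := rfl

lemma neg_apply (f : TotalCochain k X) (n : ℕ) (x : X.obj (op ⦋n⦌)) :
    (-f) n x = -(f n x) := rfl

omit [CommRing k] in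
lemma cochain_ext {f g : TotalCochain k X} (h : ∀ n x, f n x = g n x) : f = g :=
  funext fun n => funext fun x => h n x

omit [CommRing k] in
lemma ev_congr (f : TotalCochain k X) {m m' n : ℕ} (hm : m = m') (x : X.obj (op ⦋n⦌))
    (θ : (⦋m⦌ : SimplexCategory) ⟶ ⦋n⦌) (θ' : (⦋m'⦌ : SimplexCategory) ⟶ ⦋n⦌)
    (h : ∀ (i : Fin (m + 1)) (j : Fin (m' + 1)), i.val = j.val →
      (θ.toOrderHom i).val = (θ'.toOrderHom j).val) :
    f m (X.map θ.op x) = f m' (X.map θ'.op x) := by
  subst hm
  have : θ = θ' := by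
    apply SimplexCategory.Hom.ext
    ext i
    exact h i i rfl
  rw [this]

lemma map_map {a b c : ℕ} (θ : (⦋a⦌ : SimplexCategory) ⟶ ⦋b⦌) (η : (⦋b⦌ : SimplexCategory) ⟶ ⦋c⦌)
    (x : X.obj (op ⦋c⦌)) : X.map θ.op (X.map η.op x) = X.map (θ ≫ η).op x := by
  rw [op_comp, X.map_comp]
  rfl

/-- the interval of the vertices `a, …, a + m` -/
def intHom {a m n : ℕ} (h : a + m ≤ n) : (⦋m⦌ : SimplexCategory) ⟶ ⦋n⦌ :=
  SimplexCategory.mkHom ⟨fun i => ⟨i.val + a, by omega⟩,
    fun _ _ hij => Nat.add_le_add_right hij _⟩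

lemma intHom_val {a m n : ℕ} (h : a + m ≤ n) (i : Fin (m + 1)) :
    ((intHom h).toOrderHom i).val = i.val + a := rfl

/-- evaluation at an interval -/
def ev (f : TotalCochain k X) {n : ℕ} (x : X.obj (op ⦋n⦌)) (a m : ℕ) : k :=
  if h : a + m ≤ n then f m (X.map (intHom h).op x) else 0

/-- evaluation at a face of an interval -/
def evd (f : TotalCochain k X) {n : ℕ} (x : X.obj (op ⦋n⦌)) (a m i : ℕ) : k :=
  if h : a + (m + 1) ≤ n then
    (if hi : i < m + 2 then f m (X.map ((SimplexCategory.δ (⟨i, hi⟩ : Fin (m + 2))) ≫ intHom h).op x)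
      else 0)
  else 0

lemma ev_full (f : TotalCochain k X) {n : ℕ} (x : X.obj (op ⦋n⦌)) : ev f x 0 n = f n x := by
  unfold ev
  rw [dif_pos (by omega)]
  have h1 : (intHom (show 0 + n ≤ n by omega)) = 𝟙 (⦋n⦌ : SimplexCategory) := by
    apply SimplexCategory.Hom.ext
    ext i
    rfl
  rw [h1]
  simp

lemma ev_cup (f g : TotalCochain k X) {n : ℕ} (x : X.obj (op ⦋n⦌)) (a m : ℕ) (h : a + m ≤ n) :
    ev (cup f g) x a m = ∑ p ∈ Finset.range (m + 1), ev f x a p * ev g x (a + p) (m - p) := by
  rw [Finset.sum_range]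
  unfold ev
  rw [dif_pos h]
  unfold cup
  apply Finset.sum_congr rfl
  intro p _
  rw [dif_pos (by omega), dif_pos (by omega), map_map, map_map]
  congr 1
  apply ev_congr g rfl
  intro i j hij
  change i.val + (m - (m - p.val)) + a = j.val + (a + p.val)
  omega

lemma cup_assoc' (f g h : TotalCochain k X) : cup (cup f g) h = cup f (cup g h) := by
  apply cochain_ext
  intro n x
  rw [← ev_full (cup (cup f g) h) x, ← ev_full (cup f (cup g h)) x, ev_cup _ _ x 0 n (by omega),
    ev_cup _ _ x 0 n (by omega)]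
  have h1 : ∀ r ∈ Finset.range (n + 1), ev (cup f g) x 0 r * ev h x (0 + r) (n - r) =
      ∑ p ∈ Finset.range (r + 1), ev f x 0 p * ev g x p (r - p) * ev h x r (n - r) := by
    intro r hr
    rw [Finset.mem_range] at hr
    rw [ev_cup f g x 0 r (by omega), Finset.sum_mul]
    simp only [zero_add]
  have h2 : ∀ p ∈ Finset.range (n + 1), ev f x 0 p * ev (cup g h) x (0 + p) (n - p) =
      ∑ s ∈ Finset.range (n - p + 1), ev f x 0 p * ev g x p s * ev h x (p + s) (n - p - s) := by
    intro p hp
    rw [Finset.mem_range] at hp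
    rw [ev_cup g h x (0 + p) (n - p) (by omega), Finset.mul_sum]
    simp only [zero_add, mul_assoc]
  rw [Finset.sum_congr rfl h1, Finset.sum_congr rfl h2, Finset.sum_sigma', Finset.sum_sigma']
  refine Finset.sum_bij' (fun z _ => ⟨z.2, z.1 - z.2⟩) (fun z _ => ⟨z.1 + z.2, z.1⟩) ?_ ?_ ?_ ?_ ?_
  · rintro ⟨r, p⟩ h3
    simp only [Finset.mem_sigma, Finset.mem_range] at h3 ⊢
    omega
  · rintro ⟨p, s⟩ h3
    simp only [Finset.mem_sigma, Finset.mem_range] at h3 ⊢
    omega
  · rintro ⟨r, p⟩ h3
    simp only [Finset.mem_sigma, Finset.mem_range] at h3 ⊢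
    have : p + (r - p) = r := by omega
    rw [this]
  · rintro ⟨p, s⟩ h3
    simp only [Finset.mem_sigma, Finset.mem_range] at h3 ⊢
    have : p + s - p = s := by omega
    rw [this]
  · rintro ⟨r, p⟩ h3
    simp only [Finset.mem_sigma, Finset.mem_range] at h3 ⊢
    have e1 : p + (r - p) = r := by omega
    have e2 : n - p - (r - p) = n - r := by omega
    rw [e1, e2]

lemma unit_cup (f : TotalCochain k X) : cup unit f = f := by
  apply cochain_ext
  intro n x
  rw [← ev_full (cup unit f) x, ev_cup _ _ x 0 n (by omega), Finset.sum_eq_single 0]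
  · rw [← ev_full f x]
    have : ev (unit : TotalCochain k X) x 0 0 = 1 := by
      unfold ev
      rw [dif_pos (by omega)]
      rfl
    rw [this, one_mul]
    rfl
  · intro p hp hp0
    have : ev (unit : TotalCochain k X) x 0 p = 0 := by
      unfold ev unit
      split_ifs <;> rfl
    rw [this, zero_mul]
  · intro h0
    exact absurd (Finset.mem_range.2 (Nat.succ_pos n)) h0

lemma cup_unit (f : TotalCochain k X) : cup f unit = f := by
  apply cochain_ext
  intro n x
  rw [← ev_full (cup f unit) x, ev_cup _ _ x 0 n (by omega), Finset.sum_eq_single n]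
  · rw [ev_full f x]
    have : ev (unit : TotalCochain k X) x (0 + n) (n - n) = 1 := by
      unfold ev unit
      rw [dif_pos (by omega), if_pos (by omega)]
    rw [this, mul_one]
  · intro p hp hp0
    rw [Finset.mem_range] at hp
    have : ev (unit : TotalCochain k X) x (0 + p) (n - p) = 0 := by
      unfold ev unit
      rw [dif_pos (by omega), if_neg (by omega)]
    rw [this, mul_zero]
  · intro h0
    exact absurd (Finset.mem_range.2 (Nat.lt_succ_self n)) h0

lemma cup_add' (f g h : TotalCochain k X) : cup f (g + h) = cup f g + cup f h := by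
  apply cochain_ext
  intro n x
  rw [add_apply]
  unfold cup
  rw [← Finset.sum_add_distrib]
  apply Finset.sum_congr rfl
  intro p _
  rw [add_apply, mul_add]

lemma add_cup' (f g h : TotalCochain k X) : cup (f + g) h = cup f h + cup g h := by
  apply cochain_ext
  intro n x
  rw [add_apply]
  unfold cup
  rw [← Finset.sum_add_distrib]
  apply Finset.sum_congr rfl
  intro p _
  rw [add_apply, add_mul]

lemma zero_cup' (f : TotalCochain k X) : cup 0 f = 0 := by
  apply cochain_ext
  intro n x
  unfold cup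
  apply Finset.sum_eq_zero
  intro p _
  rw [zero_apply, zero_mul]

lemma cup_zero' (f : TotalCochain k X) : cup f 0 = 0 := by
  apply cochain_ext
  intro n x
  unfold cup
  apply Finset.sum_eq_zero
  intro p _
  rw [zero_apply, mul_zero]

end lemmas

section leibniz

variable {k : Type} [CommRing k] {X : SSet.{0}}

/-- multiplication by `(-1)^n` in degree `n` -/
def sgn (f : TotalCochain k X) : TotalCochain k X := fun n x => (-1 : k) ^ n * f n x

lemma sgn_apply (f : TotalCochain k X) (n : ℕ) (x : X.obj (op ⦋n⦌)) :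
    sgn f n x = (-1 : k) ^ n * f n x := rfl

lemma sgn_sgn (f : TotalCochain k X) : sgn (sgn f) = f := by
  apply cochain_ext
  intro n x
  unfold sgn
  rw [← mul_assoc, ← mul_pow, neg_one_mul, neg_neg, one_pow, one_mul]

lemma cobd_zero_apply (f : TotalCochain k X) (x : X.obj (op ⦋0⦌)) : cobd f 0 x = 0 := rfl

lemma cobd_succ_apply (f : TotalCochain k X) (n : ℕ) (x : X.obj (op ⦋n + 1⦌)) :
    cobd f (n + 1) x =
      ∑ i : Fin (n + 2), (-1 : k) ^ i.val * f n (X.map (SimplexCategory.δ i).op x) := rfl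

lemma cobd_sgn (f : TotalCochain k X) : cobd (sgn f) = -sgn (cobd f) := by
  apply cochain_ext
  intro n x
  rw [neg_apply]
  cases n with
  | zero =>
    rw [sgn_apply, cobd_zero_apply, cobd_zero_apply, mul_zero, neg_zero]
  | succ n =>
    rw [cobd_succ_apply, sgn_apply, cobd_succ_apply, Finset.mul_sum, ← Finset.sum_neg_distrib]
    apply Finset.sum_congr rfl
    intro i _
    rw [sgn_apply, pow_succ]
    ring

lemma cobd_add (f g : TotalCochain k X) : cobd (f + g) = cobd f + cobd g := by
  apply cochain_ext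
  intro n x
  rw [add_apply]
  cases n with
  | zero => rw [cobd_zero_apply, cobd_zero_apply, cobd_zero_apply, add_zero]
  | succ n =>
    rw [cobd_succ_apply, cobd_succ_apply, cobd_succ_apply, ← Finset.sum_add_distrib]
    apply Finset.sum_congr rfl
    intro i _
    rw [add_apply, mul_add]

lemma cobd_neg (f : TotalCochain k X) : cobd (-f) = -cobd f := by
  apply cochain_ext
  intro n x
  rw [neg_apply]
  cases n with
  | zero => rw [cobd_zero_apply, cobd_zero_apply, neg_zero]
  | succ n =>
    rw [cobd_succ_apply, cobd_succ_apply, ← Finset.sum_neg_distrib]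
    apply Finset.sum_congr rfl
    intro i _
    rw [neg_apply, mul_neg]

lemma cobd_zero : cobd (0 : TotalCochain k X) = 0 := by
  apply cochain_ext
  intro n x
  rw [zero_apply]
  cases n with
  | zero => rfl
  | succ n =>
    rw [cobd_succ_apply]
    apply Finset.sum_eq_zero
    intro i _
    rw [zero_apply, mul_zero]

lemma cobd_unit : cobd (unit : TotalCochain k X) = 0 := by
  apply cochain_ext
  intro n x
  rw [zero_apply]
  cases n with
  | zero => rfl
  | succ n =>
    rw [cobd_succ_apply]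
    cases n with
    | zero =>
      have h : ∀ (y : X.obj (op ⦋0⦌)), (unit : TotalCochain k X) 0 y = 1 := fun _ => rfl
      simp only [h]
      simp [Fin.sum_univ_two]
    | succ n =>
      apply Finset.sum_eq_zero
      intro i _
      have h : ∀ (y : X.obj (op ⦋n + 1⦌)), (unit : TotalCochain k X) (n + 1) y = 0 := fun _ => rfl
      rw [h, mul_zero]

lemma ev_cobd (f : TotalCochain k X) {n : ℕ} (x : X.obj (op ⦋n⦌)) (a m : ℕ)
    (h : a + (m + 1) ≤ n) :
    ev (cobd f) x a (m + 1) = ∑ i ∈ Finset.range (m + 2), (-1 : k) ^ i * evd f x a m i := by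
  rw [Finset.sum_range]
  unfold ev
  rw [dif_pos h, cobd_succ_apply]
  apply Finset.sum_congr rfl
  intro i _
  unfold evd
  rw [dif_pos h, dif_pos i.isLt, map_map]

lemma ev_cobd_zero (f : TotalCochain k X) {n : ℕ} (x : X.obj (op ⦋n⦌)) (a : ℕ) :
    ev (cobd f) x a 0 = 0 := by
  unfold ev
  split_ifs
  · rfl
  · rfl

lemma δ_val {m : ℕ} (i : Fin (m + 2)) (j : Fin (m + 1)) :
    ((SimplexCategory.δ i).toOrderHom j).val = if j.val < i.val then j.val else j.val + 1 := by
  change (i.succAbove j).val = _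
  unfold Fin.succAbove
  split_ifs with h1 h2 h2
  · rfl
  · exact absurd h1 h2
  · exact absurd h2 h1
  · rfl

lemma evd_zero (f : TotalCochain k X) {n : ℕ} (x : X.obj (op ⦋n⦌)) (a m : ℕ)
    (h : a + (m + 1) ≤ n) : evd f x a m 0 = ev f x (a + 1) m := by
  unfold evd ev
  rw [dif_pos h, dif_pos (by omega), dif_pos (by omega)]
  apply ev_congr f rfl
  intro i j hij
  change ((SimplexCategory.δ _).toOrderHom i).val + a = j.val + (a + 1)
  rw [δ_val]
  simp only [Nat.not_lt_zero, if_false]
  omega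

lemma evd_last (f : TotalCochain k X) {n : ℕ} (x : X.obj (op ⦋n⦌)) (a m : ℕ)
    (h : a + (m + 1) ≤ n) : evd f x a m (m + 1) = ev f x a m := by
  unfold evd ev
  rw [dif_pos h, dif_pos (by omega), dif_pos (by omega)]
  apply ev_congr f rfl
  intro i j hij
  change ((SimplexCategory.δ _).toOrderHom i).val + a = j.val + a
  rw [δ_val, if_pos (by have := i.isLt; change i.val < m + 1; omega)]
  omega

/-- the value of `f ∪ g` at the `i`-th face of `x`, contribution of `p` -/
lemma ev_face_front_of_le (f : TotalCochain k X) {n : ℕ} (x : X.obj (op ⦋n + 1⦌)) (i : Fin (n + 2))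
    (p : ℕ) (hp : p ≤ n) (hi : i.val ≤ p) :
    ev f (X.map (SimplexCategory.δ i).op x) 0 p = evd f x 0 p i.val := by
  unfold evd ev
  rw [dif_pos (by omega), dif_pos (by omega), dif_pos (by omega), map_map]
  apply ev_congr f rfl
  intro a b hab
  change ((SimplexCategory.δ i).toOrderHom ⟨a.val + 0, _⟩).val =
    ((SimplexCategory.δ _).toOrderHom b).val + 0
  rw [δ_val, δ_val]
  change (if a.val + 0 < i.val then a.val + 0 else a.val + 0 + 1) =
    (if b.val < i.val then b.val else b.val + 1) + 0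
  split_ifs <;> omega

lemma ev_face_back_of_le (f : TotalCochain k X) {n : ℕ} (x : X.obj (op ⦋n + 1⦌)) (i : Fin (n + 2))
    (p : ℕ) (hp : p ≤ n) (hi : i.val ≤ p) :
    ev f (X.map (SimplexCategory.δ i).op x) p (n - p) = ev f x (p + 1) (n - p) := by
  unfold ev
  rw [dif_pos (by omega), dif_pos (by omega), map_map]
  apply ev_congr f rfl
  intro a b hab
  change ((SimplexCategory.δ i).toOrderHom ⟨a.val + p, _⟩).val = b.val + (p + 1)
  rw [δ_val, if_neg (by change ¬ (a.val + p < i.val); omega)]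
  change a.val + p + 1 = _
  omega

lemma ev_face_front_of_lt (f : TotalCochain k X) {n : ℕ} (x : X.obj (op ⦋n + 1⦌)) (i : Fin (n + 2))
    (p : ℕ) (hp : p ≤ n) (hi : p < i.val) :
    ev f (X.map (SimplexCategory.δ i).op x) 0 p = ev f x 0 p := by
  unfold ev
  rw [dif_pos (by omega), dif_pos (by omega), map_map]
  apply ev_congr f rfl
  intro a b hab
  change ((SimplexCategory.δ i).toOrderHom ⟨a.val + 0, _⟩).val = b.val + 0
  rw [δ_val, if_pos (by have := a.isLt; change a.val + 0 < i.val; omega)]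
  change a.val + 0 = b.val + 0
  omega

lemma ev_face_back_of_lt (f : TotalCochain k X) {n : ℕ} (x : X.obj (op ⦋n + 1⦌)) (i : Fin (n + 2))
    (p : ℕ) (hp : p ≤ n) (hi : p < i.val) :
    ev f (X.map (SimplexCategory.δ i).op x) p (n - p) = evd f x p (n - p) (i.val - p) := by
  unfold evd ev
  rw [dif_pos (by omega), dif_pos (by omega), dif_pos (by omega), map_map]
  apply ev_congr f rfl
  intro a b hab
  change ((SimplexCategory.δ i).toOrderHom ⟨a.val + p, _⟩).val =
    ((SimplexCategory.δ _).toOrderHom b).val + p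
  rw [δ_val, δ_val]
  change (if a.val + p < i.val then a.val + p else a.val + p + 1) =
    (if b.val < i.val - p then b.val else b.val + 1) + p
  split_ifs <;> omega

/-- **The Leibniz rule.** -/
lemma cobd_cup (f g : TotalCochain k X) :
    cobd (cup f g) = cup (cobd f) g + cup (sgn f) (cobd g) := by
  apply cochain_ext
  intro n x
  cases n with
  | zero =>
    rw [add_apply, cobd_zero_apply, ← ev_full (cup (cobd f) g),
      ← ev_full (cup (sgn f) (cobd g)), ev_cup _ _ _ _ _ (by omega), ev_cup _ _ _ _ _ (by omega)]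
    simp only [zero_add, Finset.range_one, Finset.sum_singleton, Nat.sub_self, ev_cobd_zero,
      zero_mul, mul_zero]
  | succ n =>
    rw [add_apply, cobd_succ_apply, ← ev_full (cup (cobd f) g),
      ← ev_full (cup (sgn f) (cobd g)), ev_cup _ _ _ _ _ (by omega), ev_cup _ _ _ _ _ (by omega)]
    rw [Finset.sum_range_succ' (fun p => ev (cobd f) x 0 p * ev g x (0 + p) (n + 1 - p)),
      Finset.sum_range_succ (fun p => ev (sgn f) x 0 p * ev (cobd g) x (0 + p) (n + 1 - p))]
    have e0 : ev (cobd f) x 0 0 * ev g x (0 + 0) (n + 1 - 0) = 0 := by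
      rw [ev_cobd_zero, zero_mul]
    have e1 : ev (sgn f) x 0 (n + 1) * ev (cobd g) x (0 + (n + 1)) (n + 1 - (n + 1)) = 0 := by
      rw [Nat.sub_self, ev_cobd_zero, mul_zero]
    rw [e0, e1, add_zero, add_zero, ← Finset.sum_add_distrib]
    have h1 : ∀ i : Fin (n + 2), (-1 : k) ^ i.val * cup f g n (X.map (SimplexCategory.δ i).op x) =
        ∑ p ∈ Finset.range (n + 1), (-1 : k) ^ i.val *
          (ev f (X.map (SimplexCategory.δ i).op x) 0 p *
            ev g (X.map (SimplexCategory.δ i).op x) p (n - p)) := by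
      intro i
      rw [← ev_full (cup f g), ev_cup _ _ _ _ _ (by omega), Finset.mul_sum]
      simp only [zero_add]
    rw [Finset.sum_congr rfl (fun i _ => h1 i), Finset.sum_comm]
    apply Finset.sum_congr rfl
    intro p hp
    rw [Finset.mem_range] at hp
    have hp' : p ≤ n := by omega
    -- the sum over the faces as a sum over a range
    have h2 : ∑ i : Fin (n + 2), (-1 : k) ^ i.val *
          (ev f (X.map (SimplexCategory.δ i).op x) 0 p *
            ev g (X.map (SimplexCategory.δ i).op x) p (n - p)) =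
        ∑ i ∈ Finset.range (n + 2), (-1 : k) ^ i *
          (if i ≤ p then evd f x 0 p i * ev g x (p + 1) (n - p)
            else ev f x 0 p * evd g x p (n - p) (i - p)) := by
      rw [Finset.sum_range]
      apply Finset.sum_congr rfl
      intro i _
      by_cases hi : i.val ≤ p
      · rw [if_pos hi, ev_face_front_of_le f x i p hp' hi, ev_face_back_of_le g x i p hp' hi]
      · rw [if_neg hi, ev_face_front_of_lt f x i p hp' (by omega),
          ev_face_back_of_lt g x i p hp' (by omega)]
    rw [h2]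
    have h3 : n + 2 = (p + 1) + (n - p + 1) := by omega
    rw [h3, Finset.sum_range_add]
    have h4 : ∑ i ∈ Finset.range (p + 1), (-1 : k) ^ i *
          (if i ≤ p then evd f x 0 p i * ev g x (p + 1) (n - p)
            else ev f x 0 p * evd g x p (n - p) (i - p)) =
        (∑ i ∈ Finset.range (p + 1), (-1 : k) ^ i * evd f x 0 p i) * ev g x (p + 1) (n - p) := by
      rw [Finset.sum_mul]
      apply Finset.sum_congr rfl
      intro i hi
      rw [Finset.mem_range] at hi
      rw [if_pos (by omega), mul_assoc]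
    have h5 : ∑ t ∈ Finset.range (n - p + 1), (-1 : k) ^ (p + 1 + t) *
          (if p + 1 + t ≤ p then evd f x 0 p (p + 1 + t) * ev g x (p + 1) (n - p)
            else ev f x 0 p * evd g x p (n - p) (p + 1 + t - p)) =
        (-1 : k) ^ p * ev f x 0 p *
          ∑ t ∈ Finset.range (n - p + 1), (-1 : k) ^ (t + 1) * evd g x p (n - p) (t + 1) := by
      rw [Finset.mul_sum]
      apply Finset.sum_congr rfl
      intro t _
      rw [if_neg (by omega)]
      have : p + 1 + t - p = t + 1 := by omega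
      rw [this, show p + 1 + t = p + (t + 1) by omega, pow_add]
      ring
    rw [h4, h5, ev_cobd f x 0 p (by omega), Finset.sum_range_succ _ (p + 1)]
    have h6 : n + 1 - p = (n - p) + 1 := by omega
    have h7 : n + 1 - (p + 1) = n - p := by omega
    rw [h6, h7, zero_add, zero_add, ev_cobd g x p (n - p) (by omega),
      Finset.sum_range_succ' _ (n - p + 1), evd_zero g x p (n - p) (by omega),
      evd_last f x 0 p (by omega)]
    have h8 : ev (sgn f) x 0 p = (-1 : k) ^ p * ev f x 0 p := by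
      unfold ev sgn
      rw [dif_pos (by omega), dif_pos (by omega)]
    rw [h8, pow_succ]
    ring

end leibniz

section finite

variable {k : Type} [CommRing k] {X : SSet.{0}}

lemma cup_finite {f g : TotalCochain k X}
    (hf : ∃ N : ℕ, ∀ n ≥ N, ∀ x, f n x = 0) (hg : ∃ N : ℕ, ∀ n ≥ N, ∀ x, g n x = 0) :
    ∃ N : ℕ, ∀ n ≥ N, ∀ x, (cup f g) n x = 0 := by
  obtain ⟨N, hN⟩ := hf
  obtain ⟨M, hM⟩ := hg
  refine ⟨N + M, fun n hn x => ?_⟩
  unfold cup
  apply Finset.sum_eq_zero
  intro p _
  by_cases h : N ≤ p.val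
  · rw [hN _ h, zero_mul]
  · rw [hM _ (by omega), mul_zero]

lemma sgn_finite {f : TotalCochain k X}
    (hf : ∃ N : ℕ, ∀ n ≥ N, ∀ x, f n x = 0) : ∃ N : ℕ, ∀ n ≥ N, ∀ x, (sgn f) n x = 0 := by
  obtain ⟨N, hN⟩ := hf
  exact ⟨N, fun n hn x => by rw [sgn_apply, hN n hn, mul_zero]⟩

lemma add_finite {f g : TotalCochain k X}
    (hf : ∃ N : ℕ, ∀ n ≥ N, ∀ x, f n x = 0) (hg : ∃ N : ℕ, ∀ n ≥ N, ∀ x, g n x = 0) :
    ∃ N : ℕ, ∀ n ≥ N, ∀ x, (f + g) n x = 0 := by
  obtain ⟨N, hN⟩ := hf
  obtain ⟨M, hM⟩ := hg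
  refine ⟨N + M, fun n hn x => ?_⟩
  rw [add_apply, hN n (by omega), hM n (by omega), add_zero]

lemma neg_finite {f : TotalCochain k X}
    (hf : ∃ N : ℕ, ∀ n ≥ N, ∀ x, f n x = 0) : ∃ N : ℕ, ∀ n ≥ N, ∀ x, (-f) n x = 0 := by
  obtain ⟨N, hN⟩ := hf
  exact ⟨N, fun n hn x => by rw [neg_apply, hN n hn, neg_zero]⟩

lemma cobd_cup_of_cocycle {f g : TotalCochain k X} (hf : cobd f = 0) (hg : cobd g = 0) :
    cobd (cup f g) = 0 := by
  rw [cobd_cup, hf, hg, zero_cup', cup_zero', add_zero]

lemma cobd_sgn_cup {a f : TotalCochain k X} (ha : cobd a = 0) :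
    cobd (cup (sgn a) f) = cup a (cobd f) := by
  have h2 : sgn (0 : TotalCochain k X) = 0 := by
    apply cochain_ext
    intro n x
    rw [sgn_apply, zero_apply, mul_zero]
  rw [cobd_cup, cobd_sgn, ha, sgn_sgn, h2, neg_zero, zero_cup', zero_add]

lemma cobd_cup_right {f b : TotalCochain k X} (hb : cobd b = 0) :
    cobd (cup f b) = cup (cobd f) b := by
  rw [cobd_cup, hb, cup_zero', add_zero]

end finite

section pullback

variable {k : Type} [CommRing k] {X Y : SSet.{0}} (φ : X ⟶ Y)

omit [CommRing k] in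
lemma pull_apply (f : TotalCochain k Y) (n : ℕ) (x : X.obj (op ⦋n⦌)) :
    pull φ f n x = f n (φ.app (op ⦋n⦌) x) := rfl

lemma pull_cup (f g : TotalCochain k Y) : pull φ (cup f g) = cup (pull φ f) (pull φ g) := by
  apply cochain_ext
  intro n x
  change cup f g n (φ.app (op ⦋n⦌) x) =
    cup (fun n x => f n (φ.app (op ⦋n⦌) x)) (fun n x => g n (φ.app (op ⦋n⦌) x)) n x
  unfold cup
  apply Finset.sum_congr rfl
  intro p _
  rw [← NatTrans.naturality_apply, ← NatTrans.naturality_apply]

lemma cobd_pull (f : TotalCochain k Y) : cobd (pull φ f) = pull φ (cobd f) := by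
  apply cochain_ext
  intro n x
  rw [pull_apply]
  cases n with
  | zero => rfl
  | succ n =>
    rw [cobd_succ_apply, cobd_succ_apply]
    apply Finset.sum_congr rfl
    intro i _
    rw [pull_apply, ← NatTrans.naturality_apply]

lemma pull_finite {f : TotalCochain k Y} (hf : ∃ N : ℕ, ∀ n ≥ N, ∀ x, f n x = 0) :
    ∃ N : ℕ, ∀ n ≥ N, ∀ x, (pull φ f) n x = 0 := by
  obtain ⟨N, hN⟩ := hf
  exact ⟨N, fun n hn x => hN n hn _⟩

lemma pull_cocycle {f : TotalCochain k Y} (hf : cobd f = 0) : cobd (pull φ f) = 0 := by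
  rw [cobd_pull, hf]
  rfl

end pullback

end Pool.Agent.N7.Q
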