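import Pool.Agent.N7.Q.Defs

set_option autoImplicit false

open CategoryTheory Simplicial Opposite

namespace Pool.Agent.N7.Q

section det

variable {k : Type} [CommRing k] {Γ : Type} [Group Γ] (c : Γ → k) (hc : ∀ a b, c (a * b) = c a + c b)

/-- the one-cochain of an additive function -/
def oneCochain : TotalCochain k (classifyingSpace Γ) := fun n =>
  match n with
  | 0 => fun _ => 0
  | 1 => fun x => c (ComposableArrows.hom x : Γ)
  | _ + 2 => fun _ => 0

include hc

lemma oneCochain_cobd : cobd (oneCochain c) = 0 := by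
  apply cochain_ext
  intro n x
  rw [zero_apply]
  match n, x with
  | 0, x => rfl
  | 1, x =>
    rw [cobd_succ_apply]
    apply Finset.sum_eq_zero
    intro i _
    exact mul_zero _
  | 2, x =>
    rw [cobd_succ_apply, Fin.sum_univ_three]
    have h0 : oneCochain c 1 ((classifyingSpace Γ).map (SimplexCategory.δ (0 : Fin 3)).op x) =
        c (ComposableArrows.map' (n := 2) x 1 2 : Γ) := rfl
    have h1 : oneCochain c 1 ((classifyingSpace Γ).map (SimplexCategory.δ (1 : Fin 3)).op x) =
        c (ComposableArrows.map' (n := 2) x 0 2 : Γ) := rfl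
    have h2 : oneCochain c 1 ((classifyingSpace Γ).map (SimplexCategory.δ (2 : Fin 3)).op x) =
        c (ComposableArrows.map' (n := 2) x 0 1 : Γ) := rfl
    have h3 : (ComposableArrows.map' (n := 2) x 0 2 : Γ) =
        (ComposableArrows.map' (n := 2) x 1 2 : Γ) * (ComposableArrows.map' (n := 2) x 0 1 : Γ) :=
      ComposableArrows.map'_comp (n := 2) x 0 1 2
    rw [h0, h1, h2, h3, hc]
    simp
  | n + 3, x =>
    rw [cobd_succ_apply]
    apply Finset.sum_eq_zero
    intro i _
    exact mul_zero _

/-- the one-cocycle of an additive function -/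
def oneCocycle : Cocycle k (classifyingSpace Γ) :=
  ⟨oneCochain c, ⟨2, fun n hn x => by
    match n, hn with
    | n + 2, _ => rfl⟩, oneCochain_cobd c hc⟩

lemma oneClass_ne_zero (hne : ∃ a, c a ≠ 0) :
    (cls k (classifyingSpace Γ) (oneCocycle c hc)) ≠ 0 := by
  intro h
  obtain ⟨f, _, hf⟩ := Ideal.Quotient.eq_zero_iff_mem.1 h
  obtain ⟨a, ha⟩ := hne
  apply ha
  let x : (classifyingSpace Γ).obj (op ⦋0 + 1⦌) :=
    ComposableArrows.mk₁ (X₀ := SingleObj.star Γ) (X₁ := SingleObj.star Γ) a
  have h1 : cobd f (0 + 1) x = c a := by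
    rw [hf]
    rfl
  rw [← h1, cobd_succ_apply, Fin.sum_univ_two]
  have h2 : ∀ y z : (classifyingSpace Γ).obj (op ⦋0⦌), y = z := by
    intro y z
    exact ComposableArrows.ext₀ rfl
  rw [h2 ((classifyingSpace Γ).map (SimplexCategory.δ (0 : Fin 2)).op x)
    ((classifyingSpace Γ).map (SimplexCategory.δ (1 : Fin 2)).op x)]
  simp

lemma oneClass_res (F : Subgroup Γ) (hF : ∀ a ∈ F, c a = 0) :
    cohomologyMap k (classifyingMap F.subtype)
      (cls k (classifyingSpace Γ) (oneCocycle c hc)) = 0 := by
  have h : pullbackCocycles k (classifyingMap F.subtype) (oneCocycle c hc) = 0 := by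
    apply Subtype.ext
    apply cochain_ext
    intro n x
    match n, x with
    | 0, x => rfl
    | 1, x =>
      change c (F.subtype (ComposableArrows.hom x : F)) = 0
      exact hF _ (ComposableArrows.hom x : F).2
    | n + 2, x => rfl
  unfold cohomologyMap
  refine (Ideal.Quotient.lift_mk _ _ _).trans ?_
  rw [RingHom.comp_apply, h, map_zero]

end det

end Pool.Agent.N7.Q
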