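import Pool.Agent.N7.Q.Main

set_option autoImplicit false

open CategoryTheory Simplicial Opposite IsDedekindDomain
open scoped NumberField

namespace Pool.Agent.N7.Q

/-! ### The additive function on the units -/

lemma exists_place (K : Type) [Field K] [NumberField K] (l : ℕ) [Fact l.Prime] :
    ∃ v : HeightOneSpectrum (𝓞 K), (l : 𝓞 K) ∈ v.asIdeal := by
  have hl : (l : 𝓞 K) ≠ 0 := by
    exact_mod_cast (Fact.out : l.Prime).ne_zero
  have hu : ¬ IsUnit (l : 𝓞 K) := by
    intro h
    have h1 := (NumberField.isUnit_iff_norm).1 h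
    have h2 : ((RingOfIntegers.norm ℚ (l : 𝓞 K) : 𝓞 ℚ) : ℚ) = (l : ℚ) ^ Module.finrank ℚ K := by
      rw [RingOfIntegers.coe_norm]
      have : ((l : 𝓞 K) : K) = algebraMap ℚ K (l : ℚ) := by simp
      rw [this, Algebra.norm_algebraMap]
    rw [h2, abs_of_nonneg (by positivity)] at h1
    have h3 : (1 : ℚ) < (l : ℚ) ^ Module.finrank ℚ K := by
      apply one_lt_pow₀
      · exact_mod_cast (Fact.out : l.Prime).one_lt
      · exact Module.finrank_pos.ne'
    linarith
  obtain ⟨M, hM, hlM⟩ := Ideal.exists_le_maximal (Ideal.span {(l : 𝓞 K)})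
    (by rwa [Ne, Ideal.span_singleton_eq_top])
  have hlM' : (l : 𝓞 K) ∈ M := hlM (Ideal.mem_span_singleton_self _)
  exact ⟨⟨M, hM.isPrime, fun h => hl (by rw [h] at hlM'; exact (Submodule.mem_bot _).1 hlM')⟩, hlM'⟩

/-- An integer valued additive function on a group which is not zero, divided by the generator of
its image and reduced modulo `l`. -/
lemma exists_reduction (U : Type) [CommGroup U] (val : U →* Multiplicative ℤ) (u : U)
    (hu : val u ≠ 1) (l : ℕ) [Fact l.Prime] :
    ∃ φ : U → ZMod l, (∀ a b, φ (a * b) = φ a + φ b) ∧ (∃ a, φ a ≠ 0) ∧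
      ∀ a, IsOfFinOrder a → φ a = 0 := by
  let w : U → ℤ := fun a => Multiplicative.toAdd (val a)
  have hw : ∀ a b, w (a * b) = w a + w b := fun a b => by
    change Multiplicative.toAdd (val (a * b)) = _
    rw [map_mul]
    rfl
  let H : AddSubgroup ℤ := (MonoidHom.toAdditiveLeft val).range
  obtain ⟨m, hm⟩ := Int.subgroup_cyclic H
  have hmem : ∀ a, m ∣ w a := by
    intro a
    have h1 : w a ∈ H := ⟨Additive.ofMul a, rfl⟩
    rw [hm, AddSubgroup.mem_closure_singleton] at h1
    obtain ⟨z, hz⟩ := h1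
    exact ⟨z, by rw [← hz, smul_eq_mul, mul_comm]⟩
  obtain ⟨u0, hu0⟩ : ∃ u0, w u0 = m := by
    have h1 : m ∈ H := by
      rw [hm]
      exact AddSubgroup.mem_closure_singleton_self m
    obtain ⟨z, hz⟩ := h1
    exact ⟨Additive.toMul z, hz⟩
  have hm0 : m ≠ 0 := by
    intro h0
    apply hu
    have h1 := hmem u
    rw [h0, zero_dvd_iff] at h1
    exact h1
  refine ⟨fun a => ((w a / m : ℤ) : ZMod l), ?_, ⟨u0, ?_⟩, ?_⟩
  · intro a b
    change ((w (a * b) / m : ℤ) : ZMod l) = ((w a / m : ℤ) : ZMod l) + ((w b / m : ℤ) : ZMod l)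
    rw [hw, Int.add_ediv_of_dvd_left (hmem a), Int.cast_add]
  · change ((w u0 / m : ℤ) : ZMod l) ≠ 0
    rw [hu0, Int.ediv_self hm0, Int.cast_one]
    exact one_ne_zero
  · intro a ha
    have h1 : w a = 0 := by
      obtain ⟨n, hn, hna⟩ := isOfFinOrder_iff_pow_eq_one.1 ha
      have h2 : (n : ℤ) * w a = 0 := by
        have h3 : Multiplicative.toAdd (val (a ^ n)) = 0 := by rw [hna, map_one]; rfl
        rw [map_pow, toAdd_pow, nsmul_eq_mul] at h3
        exact h3
      rcases mul_eq_zero.1 h2 with h4 | h4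
      · omega
      · exact h4
    change ((w a / m : ℤ) : ZMod l) = 0
    rw [h1, Int.zero_ediv, Int.cast_zero]

lemma exists_unit_function (K : Type) [Field K] [NumberField K] (l : ℕ) [Fact l.Prime]
    (S : Set (HeightOneSpectrum (𝓞 K)))
    (hS : ∀ v : HeightOneSpectrum (𝓞 K), (l : 𝓞 K) ∈ v.asIdeal → v ∈ S) :
    ∃ φ : (S.integer K)ˣ → ZMod l, (∀ a b, φ (a * b) = φ a + φ b) ∧ (∃ a, φ a ≠ 0) ∧
      ∀ a, IsOfFinOrder a → φ a = 0 := by
  obtain ⟨v, hv⟩ := exists_place K l
  let val : (S.integer K)ˣ →* Multiplicative ℤ :=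
    (v.valuationOfNeZero (K := K)).comp (Units.map (S.integer K).subtype.toMonoidHom)
  -- `l` is a unit in the ring of `S`-integers
  have hlK : (l : K) ≠ 0 := by
    exact_mod_cast (Fact.out : l.Prime).ne_zero
  have hmem : (l : K)⁻¹ ∈ S.integer K := by
    intro w hw
    have h1 : (l : 𝓞 K) ∉ w.asIdeal := fun h => hw (hS w h)
    have h2 : w.valuation K (algebraMap (𝓞 K) K (l : 𝓞 K)) = 1 := by
      apply le_antisymm (w.valuation_le_one _)
      by_contra h3
      exact h1 ((w.valuation_lt_one_iff_mem (K := K) _).1 (not_le.1 h3))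
    rw [map_natCast] at h2
    rw [map_inv₀, h2, inv_one]
  let lu : (S.integer K)ˣ :=
    ⟨(l : S.integer K), ⟨(l : K)⁻¹, hmem⟩, Subtype.ext (mul_inv_cancel₀ hlK),
      Subtype.ext (inv_mul_cancel₀ hlK)⟩
  refine exists_reduction _ val lu ?_ l
  intro h
  have h1 : v.valuation K (l : K) < 1 := by
    have h5 := (v.valuation_lt_one_iff_mem (K := K) (l : 𝓞 K)).2 hv
    have h6 : algebraMap (𝓞 K) K (l : 𝓞 K) = (l : K) := map_natCast _ _
    rw [← h6]
    exact h5
  have h2 := v.valuationOfNeZero_eq (K := K) (Units.map (S.integer K).subtype.toMonoidHom lu)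
  have h3 : v.valuationOfNeZero (K := K) (Units.map (S.integer K).subtype.toMonoidHom lu) = 1 := h
  rw [h3] at h2
  have h4 : ((Units.map (S.integer K).subtype.toMonoidHom lu : Kˣ) : K) = (l : K) := by
    change (((l : S.integer K) : S.integer K) : K) = (l : K)
    exact map_natCast (S.integer K).subtype l
  rw [h4] at h2
  rw [← h2] at h1
  exact absurd h1 (lt_irrefl _)

/-- The hypothesis of the refined Quillen conjecture fails for `n ≥ 1`. -/
lemma exists_undetected (K : Type) [Field K] [NumberField K] (l : ℕ) [Fact l.Prime] (n : ℕ)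
    (hn : 0 < n) (S : Set (HeightOneSpectrum (𝓞 K)))
    (hS : ∀ v : HeightOneSpectrum (𝓞 K), (l : 𝓞 K) ∈ v.asIdeal → v ∈ S) :
    ∃ x : CohomologyRing (ZMod l) (classifyingSpace (GL (Fin n) (S.integer K))), x ≠ 0 ∧
      ∀ F : Subgroup (GL (Fin n) (S.integer K)), Finite F →
        cohomologyMap (ZMod l) (classifyingMap F.subtype) x = 0 := by
  obtain ⟨φ, h1, ⟨u, h2⟩, h3⟩ := exists_unit_function K l S hS
  let c : GL (Fin n) (S.integer K) → ZMod l := fun g => φ (Matrix.GeneralLinearGroup.det g)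
  have hc : ∀ a b, c (a * b) = c a + c b := by
    intro a b
    change φ (Matrix.GeneralLinearGroup.det (a * b)) = _
    rw [map_mul]
    exact h1 _ _
  refine ⟨cls _ _ (oneCocycle c hc), oneClass_ne_zero c hc ?_, ?_⟩
  · obtain ⟨g, hg⟩ : ∃ g : GL (Fin n) (S.integer K), Matrix.GeneralLinearGroup.det g = u := by
      let dd : Fin n → (S.integer K)ˣ := Function.update 1 ⟨0, hn⟩ u
      refine ⟨⟨Matrix.diagonal fun i => (dd i : S.integer K),
        Matrix.diagonal fun i => ((dd i)⁻¹ : (S.integer K)ˣ), ?_, ?_⟩, ?_⟩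
      · rw [Matrix.diagonal_mul_diagonal, ← Matrix.diagonal_one]
        congr 1
        funext i
        exact (dd i).mul_inv
      · rw [Matrix.diagonal_mul_diagonal, ← Matrix.diagonal_one]
        congr 1
        funext i
        exact (dd i).inv_mul
      · apply Units.ext
        change Matrix.det (Matrix.diagonal fun i => (dd i : S.integer K)) = u
        rw [Matrix.det_diagonal, ← Units.coe_prod]
        congr 1
        change ∏ i, Function.update (1 : Fin n → (S.integer K)ˣ) ⟨0, hn⟩ u i = u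
        rw [Finset.prod_update_of_mem (Finset.mem_univ _)]
        simp
    exact ⟨g, by change φ _ ≠ 0; rw [hg]; exact h2⟩
  · intro F hF
    apply oneClass_res c hc F
    intro a ha
    apply h3
    apply MonoidHom.isOfFinOrder
    have := isOfFinOrder_of_finite (⟨a, ha⟩ : F)
    rwa [← Submonoid.isOfFinOrder_coe] at this

end Pool.Agent.N7.Q
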