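import Pool.Agent.N7.Q.Num

set_option autoImplicit false

open CategoryTheory Simplicial Opposite

namespace Pool.Agent.N7.Q

section triv

variable (l : ℕ) [Fact l.Prime] (Γ : Type) [Group Γ] [Subsingleton Γ]

lemma simplex_unique (n : ℕ) (x y : (classifyingSpace Γ).obj (op ⦋n⦌)) : x = y := by
  refine CategoryTheory.Functor.ext (fun i => rfl) ?_
  intro i j f
  exact Subsingleton.elim (α := Γ) _ _

/-- a simplex in each degree -/
def pt (n : ℕ) : (classifyingSpace Γ).obj (op ⦋n⦌) :=
  ((CategoryTheory.Functor.const _).obj (SingleObj.star Γ) : ComposableArrows (SingleObj Γ) n)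

lemma alt_sum (n : ℕ) : ∑ i : Fin (n + 2), (-1 : ZMod l) ^ i.val = if Even n then 0 else 1 := by
  rw [Finset.sum_range (fun i => (-1 : ZMod l) ^ i) |>.symm]
  induction n with
  | zero => simp [Finset.sum_range_succ]
  | succ n ih =>
    rw [Finset.sum_range_succ, ih]
    by_cases h : Even n
    · rw [if_pos h, if_neg (by rw [Nat.even_add_one]; simpa using h), zero_add, pow_add,
        h.neg_one_pow]
      norm_num
    · rw [if_neg h, if_pos (by rw [Nat.even_add_one]; exact h), pow_add,
        (Nat.not_even_iff_odd.1 h).neg_one_pow]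
      norm_num

lemma cobd_triv (f : TotalCochain (ZMod l) (classifyingSpace Γ)) (n : ℕ)
    (x : (classifyingSpace Γ).obj (op ⦋n + 1⦌)) (y : (classifyingSpace Γ).obj (op ⦋n⦌)) :
    cobd f (n + 1) x = (if Even n then 0 else 1) * f n y := by
  rw [cobd_succ_apply, ← alt_sum, Finset.sum_mul]
  apply Finset.sum_congr rfl
  intro i _
  rw [simplex_unique Γ n ((classifyingSpace Γ).map (SimplexCategory.δ i).op x) y]

omit [Subsingleton Γ] in
lemma natCast_apply_zero (N : ℕ) (x : (classifyingSpace Γ).obj (op ⦋0⦌)) :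
    (N : TotalCochain (ZMod l) (classifyingSpace Γ)) 0 x = N := by
  induction N with
  | zero =>
    rw [Nat.cast_zero, Nat.cast_zero]
    rfl
  | succ N ih =>
    rw [Nat.cast_succ, Nat.cast_succ, add_apply, ih]
    rfl

omit [Subsingleton Γ] in
lemma natCast_apply_succ (N n : ℕ) (x : (classifyingSpace Γ).obj (op ⦋n + 1⦌)) :
    (N : TotalCochain (ZMod l) (classifyingSpace Γ)) (n + 1) x = 0 := by
  induction N with
  | zero =>
    rw [Nat.cast_zero]
    rfl
  | succ N ih =>
    rw [Nat.cast_succ, add_apply, ih, zero_add]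
    rfl

/-- the shifted cochain -/
def shiftPt (f : TotalCochain (ZMod l) (classifyingSpace Γ)) :
    TotalCochain (ZMod l) (classifyingSpace Γ) := fun m _ => f (m + 1) (pt Γ (m + 1))

lemma eq_natCast (x : CohomologyRing (ZMod l) (classifyingSpace Γ)) : ∃ N : ℕ, x = N := by
  obtain ⟨z, rfl⟩ : ∃ z, cls _ _ z = x := Ideal.Quotient.mk_surjective x
  obtain ⟨f, ⟨M, hM⟩, hf⟩ := z
  refine ⟨(f 0 (pt Γ 0)).val, ?_⟩
  rw [← map_natCast (cls (ZMod l) (classifyingSpace Γ))]
  apply Ideal.Quotient.eq.2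
  refine ⟨shiftPt l Γ f, ⟨M, fun n hn x => hM (n + 1) (by omega) _⟩, ?_⟩
  change _ = f - (((f 0 (pt Γ 0)).val : cocycles (ZMod l) (classifyingSpace Γ)) :
    TotalCochain (ZMod l) (classifyingSpace Γ))
  have h0 : (((f 0 (pt Γ 0)).val : cocycles (ZMod l) (classifyingSpace Γ)) :
    TotalCochain (ZMod l) (classifyingSpace Γ)) = ((f 0 (pt Γ 0)).val :
      TotalCochain (ZMod l) (classifyingSpace Γ)) := by
    exact map_natCast (cocycles (ZMod l) (classifyingSpace Γ)).subtype _
  rw [h0, sub_eq_add_neg]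
  apply cochain_ext
  intro n x
  rw [add_apply, neg_apply]
  cases n with
  | zero =>
    rw [natCast_apply_zero, cobd_zero_apply, simplex_unique Γ 0 x (pt Γ 0), ZMod.natCast_zmod_val,
      add_neg_cancel]
  | succ n =>
    rw [natCast_apply_succ, neg_zero, add_zero, cobd_triv l Γ _ n x (pt Γ n),
      simplex_unique Γ _ x (pt Γ (n + 1))]
    change _ * f (n + 1) (pt Γ (n + 1)) = _
    by_cases h : Even n
    · rw [if_pos h, zero_mul]
      have h1 : cobd f (n + 2) (pt Γ (n + 2)) = 0 := by
        rw [hf]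
        rfl
      rw [cobd_triv l Γ f (n + 1) _ (pt Γ (n + 1)), if_neg (by rw [Nat.even_add_one]; simpa using h),
        one_mul] at h1
      exact h1.symm
    · rw [if_neg h, one_mul]

end triv

lemma free_of_forall_mem {A : Type} [Ring A] (R : Subring A) (h : ∀ a : A, a ∈ R) :
    Module.Free R A := by
  let e : R →ₗ[R] A := LinearMap.toSpanSingleton R A 1
  have he : ∀ r : R, e r = r.1 := by
    intro r
    change r • (1 : A) = r.1
    rw [Subring.smul_def, smul_eq_mul, mul_one]
  refine Module.Free.of_equiv (LinearEquiv.ofBijective e ⟨?_, ?_⟩)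
  · intro a b hab
    rw [he, he] at hab
    exact Subtype.ext hab
  · intro a
    exact ⟨⟨a, h a⟩, he _⟩

end Pool.Agent.N7.Q
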